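import Mathlib

/-!
The `T₄`-hull iteration for upper triangular `2 × 2` matrices need not terminate.

A point `(x, y, z)` stands for the matrix `[[x, z], [0, y]]`.

The set `K` consists of six points `E 0, …, E 5` (the ends of the arms of a cycle
`v₁ → v₆ → v₅ → v₄ → v₃ → v₂ → v₁` of alternating rank-one splittings), the six points
`E l - (0, 0, 1)`, and one low point above `v₁ = (2, 2)`.  The biconcave function `Fn 0` bounds the
hull from above.  Rank-one segments alone push the heights above `v₁` up to `Fn 0 (2, 2)`, but this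
limit height is never attained: it would need all six points `E l`, while every step of the
iteration uses at most four points.  The functions `Fn m`, `1 ≤ m ≤ 5`, are the certificates.
-/

namespace Pool.Agent.Results.MP_9768d1_an.NonTermination

/-! ### Definitions used in the statement -/

/-- `(x, y, z)` encodes the upper triangular matrix `[[x, z], [0, y]]`; a nonzero such matrix has
rank one iff `x * y = 0`. -/
def RankOne (C : ℝ × ℝ × ℝ) : Prop := C ≠ 0 ∧ C.1 * C.2.1 = 0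

/-- `f` is convex along every line with rank-one direction. -/
def RankOneConvex (f : ℝ × ℝ × ℝ → ℝ) : Prop :=
  ∀ A C : ℝ × ℝ × ℝ, RankOne C → ConvexOn ℝ Set.univ (fun t : ℝ => f (A + t • C))

/-- The rank-one convex hull of a finite nonempty set `K`: all `P` with `f P ≤ max_K f` for every
rank-one convex `f`. -/
def rcHull (K : Set (ℝ × ℝ × ℝ)) : Set (ℝ × ℝ × ℝ) :=
  {P | ∀ f, RankOneConvex f → ∃ B ∈ K, f P ≤ f B}

/-- `A 0, A 1, A 2, A 3` form a `T₄` configuration (degenerate ones allowed). -/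
def IsT4 (A : Fin 4 → ℝ × ℝ × ℝ) : Prop :=
  ∃ (P : ℝ × ℝ × ℝ) (C : Fin 4 → ℝ × ℝ × ℝ) (α : Fin 4 → ℝ),
    (∀ j, RankOne (C j)) ∧ C 0 + C 1 + C 2 + C 3 = 0 ∧ (∀ j, 1 ≤ α j) ∧
      A 0 = P + α 0 • C 0 ∧ A 1 = P + C 0 + α 1 • C 1 ∧
      A 2 = P + C 0 + C 1 + α 2 • C 2 ∧ A 3 = P + C 0 + C 1 + C 2 + α 3 • C 3

/-- One step of the iteration: the union of the rank-one convex hulls of all `T₄` configurations in
`S` and of all rank-one segments with both endpoints in `S`. -/
def step (S : Set (ℝ × ℝ × ℝ)) : Set (ℝ × ℝ × ℝ) :=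
  {P | (∃ A : Fin 4 → ℝ × ℝ × ℝ, (∀ j, A j ∈ S) ∧ IsT4 A ∧ P ∈ rcHull (Set.range A)) ∨
    ∃ A B, A ∈ S ∧ B ∈ S ∧ RankOne (B - A) ∧ P ∈ segment ℝ A B}

/-- `K^(i)`. -/
def iter (K : Set (ℝ × ℝ × ℝ)) : ℕ → Set (ℝ × ℝ × ℝ)
  | 0 => K
  | i + 1 => step (iter K i)

/-- The `T₄`-convex hull, the union of all `K^(i)`. -/
def T4Hull (K : Set (ℝ × ℝ × ℝ)) : Set (ℝ × ℝ × ℝ) := ⋃ i, iter K i

/-! ### Piecewise bilinear functions -/

/-- The hat function centred at `i + 1`. -/
noncomputable def ht (i : ℕ) (x : ℝ) : ℝ := (|x - i| + |x - (i + 2)| - 2 * |x - (i + 1)|) / 2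

lemma ht_nonneg (i : ℕ) (x : ℝ) : 0 ≤ ht i x := by
  unfold ht
  have h : |2 * (x - (i + 1))| ≤ |x - i| + |x - (i + 2)| := by
    have := abs_add_le (x - i) (x - (i + 2))
    have e : x - i + (x - (i + 2)) = 2 * (x - (i + 1)) := by ring
    rwa [e] at this
  rw [abs_mul, abs_two] at h
  linarith

lemma ht_pos {i : ℕ} {x : ℝ} (h1 : (i : ℝ) < x) (h2 : x < i + 2) : 0 < ht i x := by
  unfold ht
  rw [abs_of_pos (show (0 : ℝ) < x - i by linarith),
    abs_of_neg (show x - ((i : ℝ) + 2) < 0 by linarith)]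
  rcases le_total x (i + 1) with h | h
  · rw [abs_of_nonpos (by linarith)]; linarith
  · rw [abs_of_nonneg (by linarith)]; linarith

lemma ht_nat (i k : ℕ) : ht i ((k : ℝ) + 1) = if i = k then 1 else 0 := by
  unfold ht
  rcases lt_trichotomy i k with h | h | h
  · rw [if_neg (by omega)]
    have hk : (i : ℝ) + 1 ≤ k := by exact_mod_cast h
    rw [abs_of_nonneg (by linarith), abs_of_nonneg (by linarith), abs_of_nonneg (by linarith)]
    ring
  · subst h
    rw [if_pos rfl, abs_of_nonneg (by linarith), abs_of_nonpos (by linarith),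
      abs_of_nonneg (by linarith)]
    ring
  · rw [if_neg (by omega)]
    have hk : (k : ℝ) + 1 ≤ i := by exact_mod_cast h
    rw [abs_of_nonpos (by linarith), abs_of_nonpos (by linarith), abs_of_nonpos (by linarith)]
    ring

/-- The node values: table `0` is the top function, tables `1, …, 5` are the certificates. -/
def tbl : List (List (List ℕ)) :=
  [[[23150, 44500, 42450, 38600, 32950, 25500], [30040, 42512, 44184, 45856, 47528, 49200],
    [35130, 40524, 44118, 43212, 42306, 39600], [38420, 38536, 38652, 38768, 37084, 28200],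
    [20110, 26648, 31386, 34324, 25562, 15000]],
   [[23148, 44213, 42448, 38598, 32948, 25498], [30038, 42320, 44040, 45760, 47480, 49200],
    [35128, 40427, 44118, 43200, 42282, 39598], [38420, 38534, 38648, 38762, 37084, 28198],
    [20108, 26646, 31384, 34324, 25560, 14998]],
   [[23148, 44500, 42448, 38598, 32948, 25498], [30038, 42448, 44136, 45824, 47512, 49200],
    [35128, 40396, 44118, 43208, 42298, 39598], [38133, 38344, 38555, 38766, 37084, 28198],
    [20108, 26646, 31384, 34324, 25560, 14998]],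
   [[23148, 44500, 42448, 38598, 32948, 25498], [30038, 42480, 44160, 45840, 47520, 49200],
    [35128, 40460, 44118, 43210, 42302, 39598], [38420, 38440, 38460, 38480, 37084, 28198],
    [20108, 26646, 31384, 33750, 25560, 14998]],
   [[23148, 44500, 42448, 38598, 32948, 25498], [30038, 42496, 44172, 45848, 47524, 49200],
    [35128, 40492, 43544, 42924, 42304, 39598], [38420, 38488, 38556, 38624, 37084, 28198],
    [20108, 26646, 31384, 34324, 25560, 14998]],
   [[23148, 44500, 42448, 38598, 32948, 25498], [30038, 42504, 44178, 45852, 47526, 49200],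
    [35128, 40508, 44118, 43068, 42018, 39598], [38420, 38512, 38604, 38696, 36510, 28198],
    [20108, 26646, 31384, 34324, 25560, 14998]]]

/-- Table lookup. -/
def G (k i j : ℕ) : ℕ := ((tbl.getD k []).getD i []).getD j 0

/-- The piecewise bilinear function with node values `G k`, continued with steep slopes. -/
noncomputable def Fn (k : ℕ) (x y : ℝ) : ℝ :=
  (∑ i ∈ Finset.range 5, ∑ j ∈ Finset.range 6, (G k i j : ℝ) * ht i x * ht j y)
    - 50000 * ((|x| + |x - 6| - 6) / 2) - 50000 * ((|y| + |y - 7| - 7) / 2)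

lemma concave_abs {g : ℝ} (hg : g ≤ 0) (a : ℝ) :
    ConcaveOn ℝ Set.univ (fun x : ℝ => g * |x - a|) := by
  refine ⟨convex_univ, fun x _ y _ s t hs ht hst => ?_⟩
  simp only [smul_eq_mul]
  have h : |s * x + t * y - a| ≤ s * |x - a| + t * |y - a| := by
    have e : s * x + t * y - a = s * (x - a) + t * (y - a) := by
      have : a = (s + t) * a := by rw [hst, one_mul]
      linear_combination (-1 : ℝ) * this
    rw [e]
    refine (abs_add_le _ _).trans ?_
    rw [abs_mul, abs_mul, abs_of_nonneg hs, abs_of_nonneg ht]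
  nlinarith

lemma conc5 (c : ℕ → ℝ) (D : ℝ) (h0 : c 1 ≤ 2 * c 0) (h1 : c 0 + c 2 ≤ 2 * c 1)
    (h2 : c 1 + c 3 ≤ 2 * c 2) (h3 : c 2 + c 4 ≤ 2 * c 3) (h4 : c 3 ≤ 2 * c 4)
    (hl : c 0 ≤ 50000) (hr : c 4 ≤ 50000) :
    ConcaveOn ℝ Set.univ (fun x : ℝ => (∑ i ∈ Finset.range 5, c i * ht i x)
      - 50000 * ((|x| + |x - 6| - 6) / 2) - D) := by
  have key := ((((((concave_abs (show (c 0 - 50000) / 2 ≤ 0 by linarith) 0).add
    (concave_abs (show (c 1 - 2 * c 0) / 2 ≤ 0 by linarith) 1)).add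
    (concave_abs (show (c 0 + c 2 - 2 * c 1) / 2 ≤ 0 by linarith) 2)).add
    (concave_abs (show (c 1 + c 3 - 2 * c 2) / 2 ≤ 0 by linarith) 3)).add
    (concave_abs (show (c 2 + c 4 - 2 * c 3) / 2 ≤ 0 by linarith) 4)).add
    (concave_abs (show (c 3 - 2 * c 4) / 2 ≤ 0 by linarith) 5)).add
    (concave_abs (show (c 4 - 50000) / 2 ≤ 0 by linarith) 6)
  have key2 := key.add_const (150000 - D)
  refine key2.congr ?_
  intro x _
  simp only [Finset.sum_range_succ, Finset.sum_range_zero, ht, Pi.add_apply]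
  norm_num
  ring

lemma conc6 (c : ℕ → ℝ) (D : ℝ) (h0 : c 1 ≤ 2 * c 0) (h1 : c 0 + c 2 ≤ 2 * c 1)
    (h2 : c 1 + c 3 ≤ 2 * c 2) (h3 : c 2 + c 4 ≤ 2 * c 3) (h4 : c 3 + c 5 ≤ 2 * c 4)
    (h5 : c 4 ≤ 2 * c 5) (hl : c 0 ≤ 50000) (hr : c 5 ≤ 50000) :
    ConcaveOn ℝ Set.univ (fun y : ℝ => (∑ j ∈ Finset.range 6, c j * ht j y)
      - D - 50000 * ((|y| + |y - 7| - 7) / 2)) := by
  have key := (((((((concave_abs (show (c 0 - 50000) / 2 ≤ 0 by linarith) 0).add
    (concave_abs (show (c 1 - 2 * c 0) / 2 ≤ 0 by linarith) 1)).add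
    (concave_abs (show (c 0 + c 2 - 2 * c 1) / 2 ≤ 0 by linarith) 2)).add
    (concave_abs (show (c 1 + c 3 - 2 * c 2) / 2 ≤ 0 by linarith) 3)).add
    (concave_abs (show (c 2 + c 4 - 2 * c 3) / 2 ≤ 0 by linarith) 4)).add
    (concave_abs (show (c 3 + c 5 - 2 * c 4) / 2 ≤ 0 by linarith) 5)).add
    (concave_abs (show (c 4 - 2 * c 5) / 2 ≤ 0 by linarith) 6)).add
    (concave_abs (show (c 5 - 50000) / 2 ≤ 0 by linarith) 7)
  have key2 := key.add_const (175000 - D)
  refine key2.congr ?_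
  intro x _
  simp only [Finset.sum_range_succ, Finset.sum_range_zero, ht, Pi.add_apply]
  norm_num
  ring

lemma ht_sum_le5 (x : ℝ) : ∑ i ∈ Finset.range 5, ht i x ≤ 1 := by
  simp only [Finset.sum_range_succ, Finset.sum_range_zero, ht]
  norm_num
  have h1 := abs_sub_abs_le_abs_sub x 1
  have h2 := abs_sub_abs_le_abs_sub (x - 6) (x - 5)
  have e1 : |x| - |x - 1| ≤ 1 := by
    have := abs_sub_abs_le_abs_sub x (x - 1)
    rwa [show x - (x - 1) = 1 by ring, abs_one] at this
  have e2 : |x - 6| - |x - 5| ≤ 1 := by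
    have := abs_sub_abs_le_abs_sub (x - 6) (x - 5)
    rwa [show x - 6 - (x - 5) = -1 by ring, abs_neg, abs_one] at this
  linarith

lemma ht_sum_le6 (x : ℝ) : ∑ i ∈ Finset.range 6, ht i x ≤ 1 := by
  simp only [Finset.sum_range_succ, Finset.sum_range_zero, ht]
  norm_num
  have e1 : |x| - |x - 1| ≤ 1 := by
    have := abs_sub_abs_le_abs_sub x (x - 1)
    rwa [show x - (x - 1) = 1 by ring, abs_one] at this
  have e2 : |x - 7| - |x - 6| ≤ 1 := by
    have := abs_sub_abs_le_abs_sub (x - 7) (x - 6)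
    rwa [show x - 7 - (x - 6) = -1 by ring, abs_neg, abs_one] at this
  linarith

lemma G_le : ∀ k < 6, ∀ i < 5, ∀ j < 6, G k i j ≤ 50000 := by decide

lemma G_x : ∀ k < 6, ∀ j < 6, G k 1 j ≤ 2 * G k 0 j ∧ G k 0 j + G k 2 j ≤ 2 * G k 1 j ∧
    G k 1 j + G k 3 j ≤ 2 * G k 2 j ∧ G k 2 j + G k 4 j ≤ 2 * G k 3 j ∧
    G k 3 j ≤ 2 * G k 4 j := by decide

lemma G_y : ∀ k < 6, ∀ i < 5, G k i 1 ≤ 2 * G k i 0 ∧ G k i 0 + G k i 2 ≤ 2 * G k i 1 ∧
    G k i 1 + G k i 3 ≤ 2 * G k i 2 ∧ G k i 2 + G k i 4 ≤ 2 * G k i 3 ∧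
    G k i 3 + G k i 5 ≤ 2 * G k i 4 ∧ G k i 4 ≤ 2 * G k i 5 := by decide

lemma Fn_conc_x {k : ℕ} (hk : k < 6) (y : ℝ) : ConcaveOn ℝ Set.univ (fun x => Fn k x y) := by
  have h := conc5 (fun i => ∑ j ∈ Finset.range 6, (G k i j : ℝ) * ht j y)
    (50000 * ((|y| + |y - 7| - 7) / 2)) ?_ ?_ ?_ ?_ ?_ ?_ ?_
  · refine h.congr ?_
    intro x _
    simp only [Fn, Finset.sum_mul]
    congr 2
    refine Finset.sum_congr rfl fun i _ => Finset.sum_congr rfl fun j _ => ?_
    ring
  all_goals try simp only [Finset.mul_sum, ← Finset.sum_add_distrib]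
  · refine Finset.sum_le_sum fun j hj => ?_
    have := (G_x k hk j (Finset.mem_range.1 hj)).1
    have h' : (G k 1 j : ℝ) ≤ 2 * G k 0 j := by exact_mod_cast this
    nlinarith [ht_nonneg j y]
  · refine Finset.sum_le_sum fun j hj => ?_
    have := (G_x k hk j (Finset.mem_range.1 hj)).2.1
    have h' : (G k 0 j : ℝ) + G k 2 j ≤ 2 * G k 1 j := by exact_mod_cast this
    nlinarith [ht_nonneg j y]
  · refine Finset.sum_le_sum fun j hj => ?_
    have := (G_x k hk j (Finset.mem_range.1 hj)).2.2.1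
    have h' : (G k 1 j : ℝ) + G k 3 j ≤ 2 * G k 2 j := by exact_mod_cast this
    nlinarith [ht_nonneg j y]
  · refine Finset.sum_le_sum fun j hj => ?_
    have := (G_x k hk j (Finset.mem_range.1 hj)).2.2.2.1
    have h' : (G k 2 j : ℝ) + G k 4 j ≤ 2 * G k 3 j := by exact_mod_cast this
    nlinarith [ht_nonneg j y]
  · refine Finset.sum_le_sum fun j hj => ?_
    have := (G_x k hk j (Finset.mem_range.1 hj)).2.2.2.2
    have h' : (G k 3 j : ℝ) ≤ 2 * G k 4 j := by exact_mod_cast this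
    nlinarith [ht_nonneg j y]
  · have h1 : ∑ j ∈ Finset.range 6, (G k 0 j : ℝ) * ht j y
        ≤ ∑ j ∈ Finset.range 6, 50000 * ht j y := by
      refine Finset.sum_le_sum fun j hj => ?_
      have := G_le k hk 0 (by norm_num) j (Finset.mem_range.1 hj)
      have h' : (G k 0 j : ℝ) ≤ 50000 := by exact_mod_cast this
      exact mul_le_mul_of_nonneg_right h' (ht_nonneg j y)
    rw [← Finset.mul_sum] at h1
    linarith [ht_sum_le6 y]
  · have h1 : ∑ j ∈ Finset.range 6, (G k 4 j : ℝ) * ht j y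
        ≤ ∑ j ∈ Finset.range 6, 50000 * ht j y := by
      refine Finset.sum_le_sum fun j hj => ?_
      have := G_le k hk 4 (by norm_num) j (Finset.mem_range.1 hj)
      have h' : (G k 4 j : ℝ) ≤ 50000 := by exact_mod_cast this
      exact mul_le_mul_of_nonneg_right h' (ht_nonneg j y)
    rw [← Finset.mul_sum] at h1
    linarith [ht_sum_le6 y]

lemma Fn_conc_y {k : ℕ} (hk : k < 6) (x : ℝ) : ConcaveOn ℝ Set.univ (fun y => Fn k x y) := by
  have h := conc6 (fun j => ∑ i ∈ Finset.range 5, (G k i j : ℝ) * ht i x)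
    (50000 * ((|x| + |x - 6| - 6) / 2)) ?_ ?_ ?_ ?_ ?_ ?_ ?_ ?_
  · refine h.congr ?_
    intro y _
    simp only [Fn, Finset.sum_mul]
    rw [Finset.sum_comm]
  all_goals try simp only [Finset.mul_sum, ← Finset.sum_add_distrib]
  · refine Finset.sum_le_sum fun i hi => ?_
    have := (G_y k hk i (Finset.mem_range.1 hi)).1
    have h' : (G k i 1 : ℝ) ≤ 2 * G k i 0 := by exact_mod_cast this
    nlinarith [ht_nonneg i x]
  · refine Finset.sum_le_sum fun i hi => ?_
    have := (G_y k hk i (Finset.mem_range.1 hi)).2.1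
    have h' : (G k i 0 : ℝ) + G k i 2 ≤ 2 * G k i 1 := by exact_mod_cast this
    nlinarith [ht_nonneg i x]
  · refine Finset.sum_le_sum fun i hi => ?_
    have := (G_y k hk i (Finset.mem_range.1 hi)).2.2.1
    have h' : (G k i 1 : ℝ) + G k i 3 ≤ 2 * G k i 2 := by exact_mod_cast this
    nlinarith [ht_nonneg i x]
  · refine Finset.sum_le_sum fun i hi => ?_
    have := (G_y k hk i (Finset.mem_range.1 hi)).2.2.2.1
    have h' : (G k i 2 : ℝ) + G k i 4 ≤ 2 * G k i 3 := by exact_mod_cast this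
    nlinarith [ht_nonneg i x]
  · refine Finset.sum_le_sum fun i hi => ?_
    have := (G_y k hk i (Finset.mem_range.1 hi)).2.2.2.2.1
    have h' : (G k i 3 : ℝ) + G k i 5 ≤ 2 * G k i 4 := by exact_mod_cast this
    nlinarith [ht_nonneg i x]
  · refine Finset.sum_le_sum fun i hi => ?_
    have := (G_y k hk i (Finset.mem_range.1 hi)).2.2.2.2.2
    have h' : (G k i 4 : ℝ) ≤ 2 * G k i 5 := by exact_mod_cast this
    nlinarith [ht_nonneg i x]
  · have h1 : ∑ i ∈ Finset.range 5, (G k i 0 : ℝ) * ht i x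
        ≤ ∑ i ∈ Finset.range 5, 50000 * ht i x := by
      refine Finset.sum_le_sum fun i hi => ?_
      have := G_le k hk i (Finset.mem_range.1 hi) 0 (by norm_num)
      have h' : (G k i 0 : ℝ) ≤ 50000 := by exact_mod_cast this
      exact mul_le_mul_of_nonneg_right h' (ht_nonneg i x)
    rw [← Finset.mul_sum] at h1
    linarith [ht_sum_le5 x]
  · have h1 : ∑ i ∈ Finset.range 5, (G k i 5 : ℝ) * ht i x
        ≤ ∑ i ∈ Finset.range 5, 50000 * ht i x := by
      refine Finset.sum_le_sum fun i hi => ?_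
      have := G_le k hk i (Finset.mem_range.1 hi) 5 (by norm_num)
      have h' : (G k i 5 : ℝ) ≤ 50000 := by exact_mod_cast this
      exact mul_le_mul_of_nonneg_right h' (ht_nonneg i x)
    rw [← Finset.mul_sum] at h1
    linarith [ht_sum_le5 x]

lemma ht_continuous (i : ℕ) : Continuous (ht i) := by
  unfold ht; fun_prop

lemma Fn_continuous (k : ℕ) : Continuous (fun p : ℝ × ℝ × ℝ => Fn k p.1 p.2.1) := by
  unfold Fn
  have := ht_continuous
  fun_prop

/-- Node values. -/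
lemma Fn_node (k : ℕ) {i j : ℕ} (hi : i < 5) (hj : j < 6) :
    Fn k ((i : ℝ) + 1) ((j : ℝ) + 1) = G k i j := by
  unfold Fn
  have hs : (∑ a ∈ Finset.range 5, ∑ b ∈ Finset.range 6,
      (G k a b : ℝ) * ht a ((i : ℝ) + 1) * ht b ((j : ℝ) + 1)) = G k i j := by
    rw [Finset.sum_eq_single i]
    · rw [Finset.sum_eq_single j]
      · rw [ht_nat, ht_nat, if_pos rfl, if_pos rfl]; ring
      · intro b _ hb
        rw [ht_nat b j, if_neg hb]; ring
      · intro h; exact absurd (Finset.mem_range.2 hj) h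
    · intro a _ ha
      refine Finset.sum_eq_zero fun b _ => ?_
      rw [ht_nat a i, if_neg ha]; ring
    · intro h; exact absurd (Finset.mem_range.2 hi) h
  rw [hs]
  have hi' : (i : ℝ) + 1 ≤ 5 := by exact_mod_cast hi
  have hj' : (j : ℝ) + 1 ≤ 6 := by exact_mod_cast hj
  have hi0 : (0 : ℝ) ≤ i := Nat.cast_nonneg i
  have hj0 : (0 : ℝ) ≤ j := Nat.cast_nonneg j
  rw [abs_of_nonneg (show (0 : ℝ) ≤ (i : ℝ) + 1 by linarith),
    abs_of_nonpos (show (i : ℝ) + 1 - 6 ≤ 0 by linarith),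
    abs_of_nonneg (show (0 : ℝ) ≤ (j : ℝ) + 1 by linarith),
    abs_of_nonpos (show (j : ℝ) + 1 - 7 ≤ 0 by linarith)]
  ring


/-! ### Test functions -/

/-- Convexity along a line in a rank-one direction only involves one of the two variables. -/
lemma rankOneConvex_sub (k : ℕ) (hk : k < 6) :
    RankOneConvex (fun p => p.2.2 - Fn k p.1 p.2.1) := by
  intro A C hC
  refine ⟨convex_univ, fun s _ t _ a b ha hb hab => ?_⟩
  simp only [smul_eq_mul, Prod.fst_add, Prod.snd_add, Prod.smul_fst, Prod.smul_snd]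
  rcases mul_eq_zero.1 hC.2 with h | h
  · have := (Fn_conc_y hk A.1).2 (Set.mem_univ (A.2.1 + s * C.2.1))
      (Set.mem_univ (A.2.1 + t * C.2.1)) ha hb hab
    simp only [smul_eq_mul] at this
    have e : a * (A.2.1 + s * C.2.1) + b * (A.2.1 + t * C.2.1)
        = A.2.1 + (a * s + b * t) * C.2.1 := by
      linear_combination A.2.1 * hab
    rw [e] at this
    simp only [h, mul_zero, add_zero]
    have e2 : A.2.2 + (a * s + b * t) * C.2.2
        = a * (A.2.2 + s * C.2.2) + b * (A.2.2 + t * C.2.2) := by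
      linear_combination (-A.2.2) * hab
    rw [e2]
    linarith
  · have := (Fn_conc_x hk A.2.1).2 (Set.mem_univ (A.1 + s * C.1))
      (Set.mem_univ (A.1 + t * C.1)) ha hb hab
    simp only [smul_eq_mul] at this
    have e : a * (A.1 + s * C.1) + b * (A.1 + t * C.1)
        = A.1 + (a * s + b * t) * C.1 := by
      linear_combination A.1 * hab
    rw [e] at this
    simp only [h, mul_zero, add_zero]
    have e2 : A.2.2 + (a * s + b * t) * C.2.2
        = a * (A.2.2 + s * C.2.2) + b * (A.2.2 + t * C.2.2) := by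
      linear_combination (-A.2.2) * hab
    rw [e2]
    linarith

lemma RankOneConvex.add {f g : ℝ × ℝ × ℝ → ℝ} (hf : RankOneConvex f) (hg : RankOneConvex g) :
    RankOneConvex (fun p => f p + g p) :=
  fun A C hC => (hf A C hC).add (hg A C hC)

lemma RankOneConvex.const_mul {f : ℝ × ℝ × ℝ → ℝ} (hf : RankOneConvex f) {c : ℝ} (hc : 0 ≤ c) :
    RankOneConvex (fun p => c * f p) :=
  fun A C hC => (hf A C hC).smul hc

lemma rankOneConvex_linear (a b c : ℝ) :
    RankOneConvex (fun p => a * p.1 + b * p.2.1 + c * p.2.2) := by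
  intro A C _
  refine ⟨convex_univ, fun s _ t _ u v _ _ huv => le_of_eq ?_⟩
  simp only [smul_eq_mul, Prod.fst_add, Prod.snd_add, Prod.smul_fst, Prod.smul_snd]
  linear_combination (-(a * A.1 + b * A.2.1 + c * A.2.2)) * huv

/-! ### The exits -/

/-- Indices (shifted by one) of the six exit nodes. -/
def exL : List (ℕ × ℕ) := [(0, 1), (3, 0), (4, 3), (2, 2), (3, 4), (1, 5)]

/-- The exit points. -/
noncomputable def E (l : Fin 6) : ℝ × ℝ × ℝ :=
  (((exL.getD l (0, 0)).1 : ℝ) + 1, ((exL.getD l (0, 0)).2 : ℝ) + 1,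
    (G 0 (exL.getD l (0, 0)).1 (exL.getD l (0, 0)).2 : ℝ))

lemma exL_lt : ∀ l : Fin 6, (exL.getD l (0, 0)).1 < 5 ∧ (exL.getD l (0, 0)).2 < 6 := by decide

/-- Is `(i, j)` an exit node? -/
def isEx (i j : ℕ) : Bool := exL.contains (i, j)

lemma exL_mem : ∀ i < 5, ∀ j < 6, isEx i j = true →
    ∃ l : Fin 6, exL.getD l (0, 0) = (i, j) := by decide

lemma exL_inj : ∀ l l' : Fin 6, (exL.getD l (0, 0)).1 = (exL.getD l' (0, 0)).1 →
    (exL.getD l (0, 0)).2 = (exL.getD l' (0, 0)).2 → l = l' := by decide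

lemma exL_nonadj : ∀ i < 5, ∀ j < 6, isEx i j = true →
    isEx (i + 1) j = false ∧ isEx i (j + 1) = false := by decide

lemma G_strict : ∀ m < 6, m ≠ 0 → ∀ i < 5, ∀ j < 6, isEx i j = false → G m i j < G 0 i j := by decide

lemma G_weak : ∀ m < 6, ∀ i < 5, ∀ j < 6, G m i j ≤ G 0 i j := by decide

lemma G_exit : ∀ m : Fin 5, ∀ l : Fin 6, l.1 ≠ m.1 →
    G (m + 1) (exL.getD l (0, 0)).1 (exL.getD l (0, 0)).2
      = G 0 (exL.getD l (0, 0)).1 (exL.getD l (0, 0)).2 := by decide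

lemma E_inj {l l' : Fin 6} (h : E l = E l') : l = l' := by
  unfold E at h
  simp only [Prod.mk.injEq, add_left_inj, Nat.cast_inj] at h
  exact exL_inj l l' h.1 h.2.1

lemma Fn_E (k : ℕ) (l : Fin 6) :
    Fn k (E l).1 (E l).2.1 = G k (exL.getD l (0, 0)).1 (exL.getD l (0, 0)).2 :=
  Fn_node k (exL_lt l).1 (exL_lt l).2

/-- Away from the exits the certificates are strictly below the top function. -/
lemma Fn_strict {m : ℕ} (hm : m < 6) (hm0 : m ≠ 0) {x y : ℝ} (hx1 : 1 ≤ x) (hx5 : x ≤ 5)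
    (hy1 : 1 ≤ y) (hy6 : y ≤ 6)
    (hne : ∀ l : Fin 6, ¬ (x = (E l).1 ∧ y = (E l).2.1)) : Fn m x y < Fn 0 x y := by
  -- the nodes to the lower left
  obtain ⟨i, hi⟩ : ∃ i : ℕ, ⌊x⌋₊ = i + 1 := ⟨⌊x⌋₊ - 1, by
    have : 1 ≤ ⌊x⌋₊ := Nat.le_floor (by exact_mod_cast hx1)
    omega⟩
  obtain ⟨j, hj⟩ : ∃ j : ℕ, ⌊y⌋₊ = j + 1 := ⟨⌊y⌋₊ - 1, by
    have : 1 ≤ ⌊y⌋₊ := Nat.le_floor (by exact_mod_cast hy1)
    omega⟩
  have hix : (i : ℝ) + 1 ≤ x := by
    have := Nat.floor_le (show (0 : ℝ) ≤ x by linarith)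
    rw [hi] at this; exact_mod_cast this
  have hix' : x < (i : ℝ) + 2 := by
    have := Nat.lt_floor_add_one x
    rw [hi] at this; push_cast at this; linarith
  have hjy : (j : ℝ) + 1 ≤ y := by
    have := Nat.floor_le (show (0 : ℝ) ≤ y by linarith)
    rw [hj] at this; exact_mod_cast this
  have hjy' : y < (j : ℝ) + 2 := by
    have := Nat.lt_floor_add_one y
    rw [hj] at this; push_cast at this; linarith
  have hi5 : i < 5 := by
    have : (i : ℝ) + 1 ≤ 5 := hix.trans hx5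
    have : i + 1 ≤ 5 := by exact_mod_cast this
    omega
  have hj6 : j < 6 := by
    have : (j : ℝ) + 1 ≤ 6 := hjy.trans hy6
    have : j + 1 ≤ 6 := by exact_mod_cast this
    omega
  have hpi : 0 < ht i x := ht_pos (by linarith) hix'
  have hpj : 0 < ht j y := ht_pos (by linarith) hjy'
  -- a positively weighted node which is not an exit
  have hex : ∃ a b : ℕ, a < 5 ∧ b < 6 ∧ isEx a b = false ∧ 0 < ht a x ∧ 0 < ht b y := by
    cases hmem : isEx i j
    · exact ⟨i, j, hi5, hj6, hmem, hpi, hpj⟩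
    · obtain ⟨hn1, hn2⟩ := exL_nonadj i hi5 j hj6 hmem
      by_cases hxe : x = (i : ℝ) + 1
      · by_cases hye : y = (j : ℝ) + 1
        · exfalso
          obtain ⟨l, hl⟩ := exL_mem i hi5 j hj6 hmem
          apply hne l
          unfold E
          rw [hl]
          exact ⟨hxe, hye⟩
        · have hlt : (j : ℝ) + 1 < y := lt_of_le_of_ne hjy (Ne.symm hye)
          have hj1 : j + 1 < 6 := by
            have : (j : ℝ) + 1 < 6 := lt_of_lt_of_le hlt hy6
            exact_mod_cast this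
          refine ⟨i, j + 1, hi5, hj1, hn2, hpi, ht_pos ?_ ?_⟩
          · push_cast; exact hlt
          · push_cast; linarith
      · have hlt : (i : ℝ) + 1 < x := lt_of_le_of_ne hix (Ne.symm hxe)
        have hi1 : i + 1 < 5 := by
          have : (i : ℝ) + 1 < 5 := lt_of_lt_of_le hlt hx5
          exact_mod_cast this
        refine ⟨i + 1, j, hi1, hj6, hn1, ht_pos ?_ ?_, hpj⟩
        · push_cast; exact hlt
        · push_cast; linarith
  obtain ⟨a, b, ha, hb, hab, hpa, hpb⟩ := hex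
  have hterm : ∀ i ∈ Finset.range 5, ∀ j ∈ Finset.range 6,
      (G m i j : ℝ) * ht i x * ht j y ≤ (G 0 i j : ℝ) * ht i x * ht j y := by
    intro i hi j hj
    have := G_weak m hm i (Finset.mem_range.1 hi) j (Finset.mem_range.1 hj)
    have h' : (G m i j : ℝ) ≤ G 0 i j := by exact_mod_cast this
    exact mul_le_mul_of_nonneg_right (mul_le_mul_of_nonneg_right h' (ht_nonneg i x))
      (ht_nonneg j y)
  have hlt : (∑ i ∈ Finset.range 5, ∑ j ∈ Finset.range 6, (G m i j : ℝ) * ht i x * ht j y)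
      < ∑ i ∈ Finset.range 5, ∑ j ∈ Finset.range 6, (G 0 i j : ℝ) * ht i x * ht j y := by
    refine Finset.sum_lt_sum (fun i hi => Finset.sum_le_sum (hterm i hi))
      ⟨a, Finset.mem_range.2 ha, ?_⟩
    refine Finset.sum_lt_sum (hterm a (Finset.mem_range.2 ha)) ⟨b, Finset.mem_range.2 hb, ?_⟩
    have := G_strict m hm hm0 a ha b hb hab
    have h' : (G m a b : ℝ) < G 0 a b := by exact_mod_cast this
    exact mul_lt_mul_of_pos_right (mul_lt_mul_of_pos_right h' hpa) hpb
  unfold Fn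
  linarith

/-! ### The compact upper bounds for the iterates -/

/-- The big box. -/
def Box : Set (ℝ × ℝ × ℝ) := Set.Icc 1 5 ×ˢ Set.Icc 1 6 ×ˢ Set.Icc 0 50000

lemma mem_Box {p : ℝ × ℝ × ℝ} : p ∈ Box ↔
    (1 ≤ p.1 ∧ p.1 ≤ 5) ∧ (1 ≤ p.2.1 ∧ p.2.1 ≤ 6) ∧ (0 ≤ p.2.2 ∧ p.2.2 ≤ 50000) := by
  simp only [Box, Set.mem_prod, Set.mem_Icc]

lemma isCompact_Box : IsCompact Box :=
  isCompact_Icc.prod (isCompact_Icc.prod isCompact_Icc)

/-- The four-point hull operator with continuous test functions. -/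
def Gop (S : Set (ℝ × ℝ × ℝ)) : Set (ℝ × ℝ × ℝ) :=
  {p | p ∈ Box ∧ ∃ a : Fin 4 → ℝ × ℝ × ℝ, (∀ j, a j ∈ S) ∧
    ∀ f, Continuous f → RankOneConvex f → ∃ j, f p ≤ f (a j)}

/-- The invariant: compact, in the box, below the top function, and touching the top function only
at exits. -/
structure Good (S : Set (ℝ × ℝ × ℝ)) : Prop where
  compact : IsCompact S
  box : S ⊆ Box
  le : ∀ p ∈ S, p.2.2 ≤ Fn 0 p.1 p.2.1
  top : ∀ p ∈ S, p.2.2 = Fn 0 p.1 p.2.1 → ∃ l, p = E l

lemma Gop_compact {S : Set (ℝ × ℝ × ℝ)} (hS : IsCompact S) : IsCompact (Gop S) := by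
  have h1 : IsCompact ((Set.pi Set.univ (fun _ : Fin 4 => S)) ×ˢ Box) :=
    (isCompact_univ_pi fun _ => hS).prod isCompact_Box
  have hcl : IsClosed {q : (Fin 4 → ℝ × ℝ × ℝ) × (ℝ × ℝ × ℝ) |
      ∀ f : ℝ × ℝ × ℝ → ℝ, Continuous f → RankOneConvex f → ∃ j, f q.2 ≤ f (q.1 j)} := by
    simp only [Set.ofPred_forall]
    refine isClosed_iInter fun f => isClosed_iInter fun hf => isClosed_iInter fun _ => ?_
    have : {q : (Fin 4 → ℝ × ℝ × ℝ) × (ℝ × ℝ × ℝ) | ∃ j, f q.2 ≤ f (q.1 j)}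
        = ⋃ j, {q | f q.2 ≤ f (q.1 j)} := by
      ext q; simp
    rw [this]
    refine isClosed_iUnion_of_finite fun j => ?_
    exact isClosed_le (hf.comp continuous_snd) (hf.comp ((continuous_apply j).comp continuous_fst))
  have h2 := (h1.inter_right hcl).image continuous_snd
  convert h2 using 1
  ext p
  constructor
  · rintro ⟨hp, a, ha, hf⟩
    exact ⟨(a, p), ⟨⟨fun j _ => ha j, hp⟩, hf⟩, rfl⟩
  · rintro ⟨⟨a, p'⟩, ⟨⟨ha, hp⟩, hf⟩, rfl⟩
    exact ⟨hp, a, fun j => ha j (Set.mem_univ j), hf⟩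

lemma Gop_good {S : Set (ℝ × ℝ × ℝ)} (hS : Good S) : Good (Gop S) := by
  refine ⟨Gop_compact hS.compact, fun p hp => hp.1, ?_, ?_⟩
  · rintro p ⟨hp, a, ha, hf⟩
    obtain ⟨j, hj⟩ := hf (fun p => p.2.2 - Fn 0 p.1 p.2.1)
      ((continuous_snd.comp continuous_snd).sub (Fn_continuous 0))
      (rankOneConvex_sub 0 (by norm_num))
    have := hS.le _ (ha j)
    linarith
  · rintro p ⟨hp, a, ha, hf⟩ htop
    by_contra hne
    push Not at hne
    -- some exit among the first five is missed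
    obtain ⟨m, hm⟩ : ∃ m : Fin 5, ∀ j, a j ≠ E ⟨m.1, by omega⟩ := by
      by_contra hcon
      push Not at hcon
      choose φ hφ using hcon
      obtain ⟨m, m', hmm, heq⟩ := Fintype.exists_ne_map_eq_of_card_lt φ (by simp)
      apply hmm
      have h1 := hφ m
      rw [heq, hφ m'] at h1
      have := E_inj h1
      simp only [Fin.mk.injEq] at this
      exact Fin.ext this.symm
    have hm6 : m.1 + 1 < 6 := by omega
    -- large multiplier
    obtain ⟨M, hM0, hM⟩ : ∃ M : ℝ, 0 ≤ M ∧ ∀ j,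
        ((a j).2.2 - Fn (m + 1) (a j).1 (a j).2.1) + M * ((a j).2.2 - Fn 0 (a j).1 (a j).2.1)
          ≤ 0 := by
      have hj : ∀ j, ∃ M : ℝ, 0 ≤ M ∧ ((a j).2.2 - Fn (m + 1) (a j).1 (a j).2.1)
          + M * ((a j).2.2 - Fn 0 (a j).1 (a j).2.1) ≤ 0 := by
        intro j
        rcases lt_or_eq_of_le (hS.le _ (ha j)) with hlt | heq
        · refine ⟨|(a j).2.2 - Fn (m + 1) (a j).1 (a j).2.1| /
            (Fn 0 (a j).1 (a j).2.1 - (a j).2.2), by
              apply div_nonneg (abs_nonneg _); linarith, ?_⟩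
          have hpos : 0 < Fn 0 (a j).1 (a j).2.1 - (a j).2.2 := by linarith
          have e : |(a j).2.2 - Fn (m + 1) (a j).1 (a j).2.1| /
              (Fn 0 (a j).1 (a j).2.1 - (a j).2.2) * ((a j).2.2 - Fn 0 (a j).1 (a j).2.1)
              = - |(a j).2.2 - Fn (m + 1) (a j).1 (a j).2.1| := by
            field_simp
            ring
          rw [e]
          linarith [le_abs_self ((a j).2.2 - Fn (m + 1) (a j).1 (a j).2.1)]
        · refine ⟨0, le_rfl, ?_⟩
          obtain ⟨l, hl⟩ := hS.top _ (ha j) heq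
          have hlm : l.1 ≠ m.1 := by
            intro h
            apply hm j
            rw [hl]
            congr 1
            exact Fin.ext h
          rw [hl, Fn_E, G_exit m l hlm]
          simp [E]
      choose M hM0 hM using hj
      refine ⟨∑ j, M j, Finset.sum_nonneg fun j _ => hM0 j, fun j => ?_⟩
      have h1 : M j ≤ ∑ j, M j := Finset.single_le_sum (fun j _ => hM0 j) (Finset.mem_univ j)
      have h2 := hS.le _ (ha j)
      have h3 := hM j
      nlinarith
    obtain ⟨j, hj⟩ := hf (fun p => (p.2.2 - Fn (m + 1) p.1 p.2.1)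
        + M * (p.2.2 - Fn 0 p.1 p.2.1))
      (((continuous_snd.comp continuous_snd).sub (Fn_continuous _)).add
        (continuous_const.mul ((continuous_snd.comp continuous_snd).sub (Fn_continuous 0))))
      ((rankOneConvex_sub _ hm6).add ((rankOneConvex_sub 0 (by norm_num)).const_mul hM0))
    have h1 := hM j
    rw [htop, sub_self, mul_zero, add_zero] at hj
    have hb := mem_Box.1 hp
    have hs := Fn_strict hm6 (Nat.succ_ne_zero _) hb.1.1 hb.1.2 hb.2.1.1 hb.2.1.2 (fun l hl => by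
      apply hne l
      have hE : (E l).2.2 = Fn 0 (E l).1 (E l).2.1 := by rw [Fn_E]; rfl
      refine Prod.ext hl.1 (Prod.ext hl.2 ?_)
      rw [htop, hE, hl.1, hl.2])
    linarith

/-- One step of the iteration stays inside `Gop`. -/
lemma step_subset_Gop {S T : Set (ℝ × ℝ × ℝ)} (hT : Good T) (hST : S ⊆ T) : step S ⊆ Gop T := by
  rintro P (⟨A, hA, -, hP⟩ | ⟨A, B, hA, hB, hAB, hP⟩)
  · have hP' : ∀ f, RankOneConvex f → ∃ j, f P ≤ f (A j) := by
      intro f hf
      obtain ⟨B, ⟨j, rfl⟩, hj⟩ := hP f hf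
      exact ⟨j, hj⟩
    refine ⟨?_, A, fun j => hST (hA j), fun f _ hf => hP' f hf⟩
    have hb : ∀ j, A j ∈ Box := fun j => hT.box (hST (hA j))
    rw [mem_Box]
    refine ⟨⟨?_, ?_⟩, ⟨?_, ?_⟩, ⟨?_, ?_⟩⟩
    · obtain ⟨j, hj⟩ := hP' _ (rankOneConvex_linear (-1) 0 0)
      have := mem_Box.1 (hb j)
      linarith [this.1.1]
    · obtain ⟨j, hj⟩ := hP' _ (rankOneConvex_linear 1 0 0)
      have := mem_Box.1 (hb j)
      linarith [this.1.2]
    · obtain ⟨j, hj⟩ := hP' _ (rankOneConvex_linear 0 (-1) 0)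
      have := mem_Box.1 (hb j)
      linarith [this.2.1.1]
    · obtain ⟨j, hj⟩ := hP' _ (rankOneConvex_linear 0 1 0)
      have := mem_Box.1 (hb j)
      linarith [this.2.1.2]
    · obtain ⟨j, hj⟩ := hP' _ (rankOneConvex_linear 0 0 (-1))
      have := mem_Box.1 (hb j)
      linarith [this.2.2.1]
    · obtain ⟨j, hj⟩ := hP' _ (rankOneConvex_linear 0 0 1)
      have := mem_Box.1 (hb j)
      linarith [this.2.2.2]
  · obtain ⟨s, t, hs, ht, hst, rfl⟩ := hP
    have hlin : s • A + t • B = A + t • (B - A) := by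
      have : s = 1 - t := by linarith
      rw [this]; module
    have hAT := hT.box (hST hA)
    have hBT := hT.box (hST hB)
    rw [mem_Box] at hAT hBT
    refine ⟨?_, ![A, B, A, B], ?_, ?_⟩
    · rw [mem_Box]
      simp only [Prod.fst_add, Prod.snd_add, Prod.smul_fst, Prod.smul_snd, smul_eq_mul]
      have hs' : s = 1 - t := by linarith
      subst hs'
      refine ⟨⟨?_, ?_⟩, ⟨?_, ?_⟩, ⟨?_, ?_⟩⟩ <;> nlinarith
    · intro j; fin_cases j
      · exact hST hA
      · exact hST hB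
      · exact hST hA
      · exact hST hB
    · intro f _ hf
      have hc := (hf A (B - A) hAB).2 (Set.mem_univ 0) (Set.mem_univ 1) hs ht hst
      simp only [smul_eq_mul, mul_zero, mul_one, zero_add, zero_smul, add_zero, one_smul,
        add_sub_cancel] at hc
      rw [hlin]
      have hs' : s = 1 - t := by linarith
      subst hs'
      rcases le_total (f A) (f B) with h | h
      · refine ⟨1, ?_⟩
        simp only [Matrix.cons_val_one, Matrix.cons_val_zero]
        have := mul_le_mul_of_nonneg_left h hs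
        linarith
      · refine ⟨0, ?_⟩
        simp only [Matrix.cons_val_zero]
        have := mul_le_mul_of_nonneg_left h ht
        linarith

/-- The finite set. -/
def K : Set (ℝ × ℝ × ℝ) :=
  Set.range E ∪ Set.range (fun l => E l - (0, 0, 1)) ∪ {(2, 2, 0)}

lemma K_finite : K.Finite :=
  ((Set.finite_range _).union (Set.finite_range _)).union (Set.finite_singleton _)

lemma E_bounds : ∀ l : Fin 6, 1 ≤ G 0 (exL.getD l (0, 0)).1 (exL.getD l (0, 0)).2 := by decide

lemma K_good : Good K := by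
  have hE : ∀ l, E l ∈ Box ∧ 1 ≤ (E l).2.2 := by
    intro l
    have h1 := exL_lt l
    have h2 := E_bounds l
    have h3 := G_le 0 (by norm_num) _ h1.1 _ h1.2
    have c1 : ((exL.getD l (0, 0)).1 : ℝ) + 1 ≤ 5 := by exact_mod_cast h1.1
    have c2 : ((exL.getD l (0, 0)).2 : ℝ) + 1 ≤ 6 := by exact_mod_cast h1.2
    have c3 : (1 : ℝ) ≤ (G 0 (exL.getD l (0, 0)).1 (exL.getD l (0, 0)).2 : ℝ) := by
      exact_mod_cast h2
    have c4 : (G 0 (exL.getD l (0, 0)).1 (exL.getD l (0, 0)).2 : ℝ) ≤ 50000 := by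
      exact_mod_cast h3
    rw [mem_Box]
    unfold E
    refine ⟨⟨⟨?_, c1⟩, ⟨?_, c2⟩, ⟨by linarith, c4⟩⟩, c3⟩
    · linarith [Nat.cast_nonneg (α := ℝ) (exL.getD l (0, 0)).1]
    · linarith [Nat.cast_nonneg (α := ℝ) (exL.getD l (0, 0)).2]
  have hq : Fn 0 2 2 = 42512 := by
    have := Fn_node 0 (show 1 < 5 by norm_num) (show 1 < 6 by norm_num)
    norm_num at this
    rw [this]
    have : G 0 1 1 = 42512 := by decide
    rw [this]; norm_num
  refine ⟨K_finite.isCompact, ?_, ?_, ?_⟩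
  · rintro p ((⟨l, rfl⟩ | ⟨l, rfl⟩) | hp)
    · exact (hE l).1
    · have h := hE l
      rw [mem_Box] at h ⊢
      simp only [Prod.fst_sub, Prod.snd_sub, sub_zero]
      refine ⟨h.1.1, h.1.2.1, ?_, ?_⟩ <;> linarith [h.2, h.1.2.2.2]
    · rw [Set.mem_singleton_iff] at hp
      subst hp
      rw [mem_Box]; norm_num
  · rintro p ((⟨l, rfl⟩ | ⟨l, rfl⟩) | hp)
    · rw [Fn_E]; exact le_of_eq rfl
    · simp only [Prod.fst_sub, Prod.snd_sub, sub_zero]
      rw [Fn_E]
      have : (E l).2.2 = (G 0 (exL.getD l (0, 0)).1 (exL.getD l (0, 0)).2 : ℝ) := rfl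
      linarith
    · rw [Set.mem_singleton_iff] at hp
      subst hp
      simp only [hq]; norm_num
  · rintro p ((⟨l, rfl⟩ | ⟨l, rfl⟩) | hp) htop
    · exact ⟨l, rfl⟩
    · exfalso
      simp only [Prod.fst_sub, Prod.snd_sub, sub_zero] at htop
      rw [Fn_E] at htop
      have : (E l).2.2 = (G 0 (exL.getD l (0, 0)).1 (exL.getD l (0, 0)).2 : ℝ) := rfl
      linarith
    · exfalso
      rw [Set.mem_singleton_iff] at hp
      subst hp
      simp only [hq] at htop
      norm_num at htop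

/-- The compact upper bounds. -/
def Cs : ℕ → Set (ℝ × ℝ × ℝ)
  | 0 => K
  | i + 1 => Gop (Cs i)

lemma Cs_good (i : ℕ) : Good (Cs i) := by
  induction i with
  | zero => exact K_good
  | succ i ih => exact Gop_good ih

lemma iter_subset (i : ℕ) : iter K i ⊆ Cs i := by
  induction i with
  | zero => exact subset_rfl
  | succ i ih => exact step_subset_Gop (Cs_good i) ih

/-! ### The lower bound: the heights above `(2, 2)` -/

lemma split {S : Set (ℝ × ℝ × ℝ)} {A B Q : ℝ × ℝ × ℝ} (hA : A ∈ S) (hB : B ∈ S)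
    (hAB : RankOne (B - A)) (s : ℝ) (h0 : 0 ≤ s) (h1 : s ≤ 1) (hQ : Q = (1 - s) • A + s • B) :
    Q ∈ step S :=
  Or.inr ⟨A, B, hA, hB, hAB, 1 - s, s, by linarith, h0, by ring, hQ.symm⟩

lemma E_mem (i : ℕ) (l : Fin 6) : E l ∈ iter K i ∧ E l - (0, 0, 1) ∈ iter K i := by
  induction i with
  | zero => exact ⟨Or.inl (Or.inl ⟨l, rfl⟩), Or.inl (Or.inr ⟨l, rfl⟩)⟩
  | succ i ih =>
    have hr : RankOne (E l - (0, 0, 1) - E l) := by
      refine ⟨?_, ?_⟩
      · intro h
        have := congrArg (fun p : ℝ × ℝ × ℝ => p.2.2) h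
        simp at this
      · simp
    exact ⟨split ih.1 ih.2 hr 0 le_rfl zero_le_one (by simp),
      split ih.1 ih.2 hr 1 zero_le_one le_rfl (by simp)⟩

lemma E0 : E 0 = (1, 2, 44500) := by
  have : exL.getD ((0 : Fin 6) : ℕ) (0, 0) = (0, 1) := by decide
  unfold E; rw [this]
  have : G 0 0 1 = 44500 := by decide
  simp only [this]; norm_num

lemma E1 : E 1 = (4, 1, 38420) := by
  have : exL.getD ((1 : Fin 6) : ℕ) (0, 0) = (3, 0) := by decide
  unfold E; rw [this]
  have : G 0 3 0 = 38420 := by decide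
  simp only [this]; norm_num

lemma E2 : E 2 = (5, 4, 34324) := by
  have : exL.getD ((2 : Fin 6) : ℕ) (0, 0) = (4, 3) := by decide
  unfold E; rw [this]
  have : G 0 4 3 = 34324 := by decide
  simp only [this]; norm_num

lemma E3 : E 3 = (3, 3, 44118) := by
  have : exL.getD ((3 : Fin 6) : ℕ) (0, 0) = (2, 2) := by decide
  unfold E; rw [this]
  have : G 0 2 2 = 44118 := by decide
  simp only [this]; norm_num

lemma E4 : E 4 = (4, 5, 37084) := by
  have : exL.getD ((4 : Fin 6) : ℕ) (0, 0) = (3, 4) := by decide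
  unfold E; rw [this]
  have : G 0 3 4 = 37084 := by decide
  simp only [this]; norm_num

lemma E5 : E 5 = (2, 6, 49200) := by
  have : exL.getD ((5 : Fin 6) : ℕ) (0, 0) = (1, 5) := by decide
  unfold E; rw [this]
  have : G 0 1 5 = 49200 := by decide
  simp only [this]; norm_num

/-- Once around the cycle the deficit above `(2, 2)` is divided by `288`. -/
lemma around {i : ℕ} {d : ℝ} (h : ((2 : ℝ), (2 : ℝ), 42512 - d) ∈ iter K i) :
    ((2 : ℝ), (2 : ℝ), 42512 - d / 288) ∈ iter K (i + 6) := by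
  have rx : ∀ (a b c d e : ℝ), a ≠ d → RankOne ((d, b, e) - (a, b, c)) := by
    intro a b c d e had
    refine ⟨?_, by simp⟩
    intro h0
    have := congrArg (fun p : ℝ × ℝ × ℝ => p.1) h0
    simp only [Prod.fst_sub, Prod.fst_zero] at this
    exact had (by linarith)
  have ry : ∀ (a b c d e : ℝ), b ≠ d → RankOne ((a, d, e) - (a, b, c)) := by
    intro a b c d e hbd
    refine ⟨?_, by simp⟩
    intro h0
    have := congrArg (fun p : ℝ × ℝ × ℝ => p.2.1) h0
    simp only [Prod.snd_sub, Prod.fst_sub, Prod.snd_zero, Prod.fst_zero] at this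
    exact hbd (by linarith)
  have m6 : ((2 : ℝ), (5 : ℝ), 47528 - d / 4) ∈ iter K (i + 1) := by
    refine split h (E5 ▸ (E_mem i 5).1) (ry _ _ _ _ _ (by norm_num)) (3 / 4) (by norm_num)
      (by norm_num) ?_
    ext <;> simp <;> ring
  have m5 : ((3 : ℝ), (5 : ℝ), 42306 - d / 8) ∈ iter K (i + 2) := by
    refine split m6 (E4 ▸ (E_mem (i + 1) 4).1) (rx _ _ _ _ _ (by norm_num)) (1 / 2) (by norm_num)
      (by norm_num) ?_
    ext <;> simp <;> ring
  have m4 : ((3 : ℝ), (4 : ℝ), 43212 - d / 16) ∈ iter K (i + 3) := by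
    refine split m5 (E3 ▸ (E_mem (i + 2) 3).1) (ry _ _ _ _ _ (by norm_num)) (1 / 2) (by norm_num)
      (by norm_num) ?_
    ext <;> simp <;> ring
  have m3 : ((4 : ℝ), (4 : ℝ), 38768 - d / 32) ∈ iter K (i + 4) := by
    refine split m4 (E2 ▸ (E_mem (i + 3) 2).1) (rx _ _ _ _ _ (by norm_num)) (1 / 2) (by norm_num)
      (by norm_num) ?_
    ext <;> simp <;> ring
  have m2 : ((4 : ℝ), (2 : ℝ), 38536 - d / 96) ∈ iter K (i + 5) := by
    refine split m3 (E1 ▸ (E_mem (i + 4) 1).1) (ry _ _ _ _ _ (by norm_num)) (2 / 3) (by norm_num)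
      (by norm_num) ?_
    ext <;> simp <;> ring
  refine split m2 (E0 ▸ (E_mem (i + 5) 0).1) (rx _ _ _ _ _ (by norm_num)) (2 / 3) (by norm_num)
    (by norm_num) ?_
  ext <;> simp <;> ring

lemma heights (k : ℕ) : ((2 : ℝ), (2 : ℝ), (42512 : ℝ) - 42512 / 288 ^ k) ∈ iter K (6 * k) := by
  induction k with
  | zero =>
    have : ((2 : ℝ), (2 : ℝ), (42512 : ℝ) - 42512 / 288 ^ 0) = (2, 2, 0) := by norm_num
    rw [this]
    exact Or.inr rfl
  | succ k ih =>
    have := around ih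
    rwa [div_div, ← pow_succ] at this

/-- **The `T₄`-hull iteration need not terminate.**  There is a finite nonempty set `K` of upper
triangular `2 × 2` matrices such that for every `N` the union of `K^(0), …, K^(N)` is different from
the `T₄`-convex hull of `K`. -/
theorem result : ∃ K : Set (ℝ × ℝ × ℝ), K.Finite ∧ K.Nonempty ∧
    ∀ N : ℕ, T4Hull K ≠ ⋃ i ∈ Set.Iic N, iter K i := by
  refine ⟨K, K_finite, ⟨(2, 2, 0), Or.inr rfl⟩, ?_⟩
  intro N hN
  have hcl : IsClosed (⋃ i ∈ Set.Iic N, Cs i) :=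
    (Set.finite_Iic N).isClosed_biUnion fun i _ => (Cs_good i).compact.isClosed
  have hmem : ∀ k : ℕ, ((2 : ℝ), (2 : ℝ), (42512 : ℝ) - 42512 / 288 ^ k) ∈
      ⋃ i ∈ Set.Iic N, Cs i := by
    intro k
    have h1 : ((2 : ℝ), (2 : ℝ), (42512 : ℝ) - 42512 / 288 ^ k) ∈ T4Hull K :=
      Set.mem_iUnion.2 ⟨_, heights k⟩
    rw [hN] at h1
    simp only [Set.mem_iUnion] at h1 ⊢
    obtain ⟨i, hi, h2⟩ := h1
    exact ⟨i, hi, iter_subset i h2⟩
  have hlim : Filter.Tendsto (fun k : ℕ => ((2 : ℝ), (2 : ℝ), (42512 : ℝ) - 42512 / 288 ^ k))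
      Filter.atTop (nhds ((2 : ℝ), (2 : ℝ), (42512 : ℝ))) := by
    refine tendsto_const_nhds.prodMk_nhds (tendsto_const_nhds.prodMk_nhds ?_)
    have h1 : Filter.Tendsto (fun k : ℕ => (42512 : ℝ) / 288 ^ k) Filter.atTop (nhds 0) := by
      have h2 := tendsto_pow_atTop_nhds_zero_of_lt_one (show (0 : ℝ) ≤ 1 / 288 by norm_num)
        (by norm_num)
      have h3 := h2.const_mul (42512 : ℝ)
      rw [mul_zero] at h3
      refine h3.congr fun k => ?_
      rw [one_div, inv_pow]; rfl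
    have h4 := h1.const_sub (42512 : ℝ)
    rwa [sub_zero] at h4
  have hin := hcl.mem_of_tendsto hlim (Filter.Eventually.of_forall hmem)
  simp only [Set.mem_iUnion] at hin
  obtain ⟨i, -, hi⟩ := hin
  have hq : Fn 0 2 2 = 42512 := by
    have := Fn_node 0 (show 1 < 5 by norm_num) (show 1 < 6 by norm_num)
    norm_num at this
    rw [this]
    have : G 0 1 1 = 42512 := by decide
    rw [this]; norm_num
  obtain ⟨l, hl⟩ := (Cs_good i).top _ hi hq.symm
  have hfin : ∀ l : Fin 6, E l ≠ (2, 2, 42512) := by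
    intro l
    fin_cases l
    · change E 0 ≠ _
      rw [E0]; norm_num
    · change E 1 ≠ _
      rw [E1]; norm_num
    · change E 2 ≠ _
      rw [E2]; norm_num
    · change E 3 ≠ _
      rw [E3]; norm_num
    · change E 4 ≠ _
      rw [E4]; norm_num
    · change E 5 ≠ _
      rw [E5]; norm_num
  exact hfin l hl.symm

end Pool.Agent.Results.MP_9768d1_an.NonTermination
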